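import Pool.Agent.Lib.MP_43cf21_an.H18Refl

set_option autoImplicit false

namespace Pool.Agent.Results.MP_43cf21_an.OperatorsReflexive

open Pool.Agent.Lib.MP_43cf21_an

/-- If the space of bounded operators on `X` is not reflexive, no isometry on `X` has the
Bhatia-Semrl property. -/
theorem result (X Y : Type*) [NormedAddCommGroup X] [NormedSpace ℝ X] [CompleteSpace X]
    [NormedAddCommGroup Y] [NormedSpace ℝ Y] [CompleteSpace Y]
    (h : ¬ Function.Surjective (NormedSpace.inclusionInDoubleDual ℝ (X →L[ℝ] X)))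
    (T : X →L[ℝ] Y) (hT : ∀ x, ‖T x‖ = ‖x‖) : ¬ BhatiaSemrl T :=
  fun hBS => h (refl_op_of_att (att_of_BS T hT hBS))

end Pool.Agent.Results.MP_43cf21_an.OperatorsReflexive
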