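import Pool.Agent.FS.RangeApprox.Unb

set_option autoImplicit false

namespace Pool.Agent.Results.MP_43cf21_an.RangeCAP

open Pool.Agent.Lib.MP_43cf21_an

/-- An isometry `T` that agrees on an infinite-dimensional subspace with an operator `S` that is
a limit of compact operators uniformly on compact sets does not have the Bhatia-Semrl
property. -/
theorem result (X Y : Type*) [NormedAddCommGroup X] [NormedSpace ℝ X] [CompleteSpace X]
    [NormedAddCommGroup Y] [NormedSpace ℝ Y] [CompleteSpace Y]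
    (T : X →L[ℝ] Y) (hT : ∀ x, ‖T x‖ = ‖x‖)
    (E : Submodule ℝ X) (hE : ¬ FiniteDimensional ℝ E)
    (S : X →L[ℝ] Y) (hS : ∀ x ∈ E, S x = T x)
    (h : ∀ Q : Set X, IsCompact Q → ∀ ε : ℝ, 0 < ε →
      ∃ K : X →L[ℝ] Y, IsCompactOperator K ∧ ∀ x ∈ Q, ‖K x - S x‖ ≤ ε) :
    ¬ BhatiaSemrl T :=
  Pool.Agent.FS.RangeApprox.not_BS_compact E hE T hT S hS h

end Pool.Agent.Results.MP_43cf21_an.RangeCAP
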