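import Pool.Agent.FS.WeakLim.Main

set_option autoImplicit false

namespace Pool.Agent.Results.MP_43cf21_an.WeakLimits

open Filter Topology Pool.Agent.Lib.MP_43cf21_an

/-- On a reflexive domain, an operator with the Bhatia-Semrl property that is a limit of compact
operators uniformly on compact sets attains its norm at every weak limit of a maximising
sequence. -/
theorem result (X Y : Type*) [NormedAddCommGroup X] [NormedSpace ℝ X] [CompleteSpace X]
    [NormedAddCommGroup Y] [NormedSpace ℝ Y] [CompleteSpace Y]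
    (hR : Function.Surjective (NormedSpace.inclusionInDoubleDual ℝ X))
    (T : X →L[ℝ] Y) (hBS : BhatiaSemrl T)
    (h : ∀ Q : Set X, IsCompact Q → ∀ ε : ℝ, 0 < ε →
      ∃ K : X →L[ℝ] Y, IsCompactOperator K ∧ ∀ x ∈ Q, ‖K x - T x‖ ≤ ε)
    (u : ℕ → X) (hu : ∀ n, ‖u n‖ ≤ 1) (hl : Tendsto (fun n => ‖T (u n)‖) atTop (𝓝 ‖T‖))
    (x : X) (hx : ∀ f : X →L[ℝ] ℝ, Tendsto (fun n => f (u n)) atTop (𝓝 (f x))) :
    ‖T x‖ = ‖T‖ := by
  refine le_antisymm (T.unit_le_opNorm x ?_)
    (Pool.Agent.FS.WeakLim.weak_limit hR T hBS h u hu hl x hx)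
  obtain ⟨g, hg, hg'⟩ := exists_dual_vector'' ℝ x
  have h1 : g x ≤ 1 := le_of_tendsto' (hx g) fun n => by
    have h5 : ‖g (u n)‖ ≤ 1 * ‖u n‖ := g.le_of_opNorm_le hg _
    rw [one_mul] at h5
    exact (le_abs_self _).trans (h5.trans (hu n))
  simpa [hg'] using h1

end Pool.Agent.Results.MP_43cf21_an.WeakLimits
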